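import Pool.Agent.K47485c.Final

/-!
# Random products of 2 and 3 are almost surely not a Khintchin sequence

Let `0 < p < 1`, let `om 0, om 1, ...` be independent with `P (om n = 2) = p`,
`P (om n = 3) = 1 - p`, and put `lam n = om (n-1) * ... * om 0` for `n ≥ 1`.
Almost surely, for every `0 < ε < 1` there is a measurable `E ⊆ 𝕋` with measure at most `ε` such
that for almost every `x` the averages `(1/N) ∑_{n=1}^N 1_E (lam n x)` have upper limit one; in
particular they do not converge to `∫ 1_E`.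
-/

namespace Pool.Agent.Results.MP_47485c_an.SweepingOut

open MeasureTheory ProbabilityTheory Filter Topology

theorem result {Ω : Type*} [MeasurableSpace Ω] (P : Measure Ω) [IsProbabilityMeasure P]
    (p : ℝ) (hp0 : 0 < p) (hp1 : p < 1)
    (om : ℕ → Ω → ℕ) (hmeas : ∀ n, Measurable (om n)) (hind : iIndepFun om P)
    (h2 : ∀ n, P {ω | om n ω = 2} = ENNReal.ofReal p)
    (h3 : ∀ n, P {ω | om n ω = 3} = ENNReal.ofReal (1 - p)) :
    ∀ᵐ ω ∂P, ∀ ε : ℝ, 0 < ε → ε < 1 →
      ∃ E : Set UnitAddCircle, MeasurableSet E ∧ volume E ≤ ENNReal.ofReal ε ∧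
        ∀ᵐ x : UnitAddCircle,
          limsup (fun N : ℕ => (∑ n ∈ Finset.Icc 1 N, E.indicator (1 : UnitAddCircle → ℝ)
            ((∏ i ∈ Finset.range n, om i ω) • x)) / (N : ℝ)) atTop = 1 ∧
          ¬ Tendsto (fun N : ℕ => (∑ n ∈ Finset.Icc 1 N, E.indicator (1 : UnitAddCircle → ℝ)
            ((∏ i ∈ Finset.range n, om i ω) • x)) / (N : ℝ)) atTop
            (𝓝 (∫ y : UnitAddCircle, E.indicator (1 : UnitAddCircle → ℝ) y)) := by
  filter_upwards [Pool.Agent.K47485c.main hp0 hp1 hmeas hind h2 h3] with ω hω ε hε hε1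
  obtain ⟨E, hE, hvol, hlim⟩ := hω ε hε
  refine ⟨E, hE, hvol, ?_⟩
  filter_upwards [hlim] with x hx
  have hx' : limsup (fun N : ℕ => (∑ n ∈ Finset.Icc 1 N, E.indicator (1 : UnitAddCircle → ℝ)
      ((∏ i ∈ Finset.range n, om i ω) • x)) / (N : ℝ)) atTop = 1 := hx
  refine ⟨hx', fun htend => ?_⟩
  have h4 := htend.limsup_eq
  rw [hx', integral_indicator_one hE] at h4
  have h5 : volume.real E ≤ ε := by
    rw [measureReal_def]
    exact ENNReal.toReal_le_of_le_ofReal hε.le hvol
  linarith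

end Pool.Agent.Results.MP_47485c_an.SweepingOut
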